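import Mathlib.GroupTheory.PresentedGroup
import Mathlib.GroupTheory.Finiteness
import Mathlib.GroupTheory.ResiduallyFinite

/-! Garside monoids, Garside groups, and the example. -/

namespace Pool.Agent.Lib.MP_19b52f_al

/-- The relation `r` is an order (reflexive, transitive, antisymmetric) in which any two elements
have a least upper bound and a greatest lower bound. -/
def IsLatticeRel {M : Type*} (r : M → M → Prop) : Prop :=
  (∀ a, r a a) ∧ (∀ a b c, r a b → r b c → r a c) ∧ (∀ a b, r a b → r b a → a = b) ∧
    (∀ a b, ∃ j, r a j ∧ r b j ∧ ∀ c, r a c → r b c → r j c) ∧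
    (∀ a b, ∃ m, r m a ∧ r m b ∧ ∀ c, r c a → r c b → r c m)

/-- Garside monoid: atomic, finitely generated, cancellative, left and right divisibility are
lattices, and there is a Garside element. -/
structure IsGarsideMonoid (M : Type*) [Monoid M] : Prop where
  atomic : ∃ ν : M → ℕ, (∀ a, ν a = 0 ↔ a = 1) ∧ ∀ a b, ν a + ν b ≤ ν (a * b)
  fg : Monoid.FG M
  cancel_left : ∀ a b c : M, a * b = a * c → b = c
  cancel_right : ∀ a b c : M, b * a = c * a → b = c
  lattice_left : IsLatticeRel fun a b : M => ∃ c, a * c = b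
  lattice_right : IsLatticeRel fun a b : M => ∃ c, c * a = b
  delta : ∃ Δ : M, {x : M | ∃ c, x * c = Δ} = {x : M | ∃ c, c * x = Δ} ∧
    Submonoid.closure {x : M | ∃ c, x * c = Δ} = ⊤

/-- Garside group: the group of fractions of a Garside monoid, i.e. it contains a Garside monoid
`M` and each of its elements is a fraction `a * b⁻¹` with `a, b ∈ M`. -/
def IsGarsideGroup (G : Type*) [Group G] : Prop :=
  ∃ M : Submonoid G, IsGarsideMonoid M ∧ ∀ g : G, ∃ a ∈ M, ∃ b ∈ M, g = a * b⁻¹

/-- The six generators. -/
inductive Gen : Type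
  | a | b | c | x | y | z

/-- The relator `p q (r s)⁻¹`, expressing the relation `p q = r s`. -/
def rel (p q r s : Gen) : FreeGroup Gen :=
  FreeGroup.of p * FreeGroup.of q * (FreeGroup.of r * FreeGroup.of s)⁻¹

open Gen in
/-- `aa = bb = cc`, `xx = yy = zz`, `ax = xa`, `ay = ya`, `az = zb`, `bx = xb`, `by = yc`,
`bz = za`, `cx = zc`, `cy = yb`, `cz = xc`. -/
def rels : Set (FreeGroup Gen) :=
  {rel a a b b, rel b b c c, rel x x y y, rel y y z z,
    rel a x x a, rel a y y a, rel a z z b, rel b x x b, rel b y y c, rel b z z a,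
    rel c x z c, rel c y y b, rel c z x c}

/-- The group with generators `a, b, c, x, y, z` and relators `rels`. -/
abbrev Rad : Type := PresentedGroup rels

end Pool.Agent.Lib.MP_19b52f_al
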