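import Mathlib.Tactic
import Mathlib.Data.List.Chain
import Mathlib.GroupTheory.Perm.Basic

/-! The tree of reduced words, its metric, and the lattice property of cones. -/

namespace Pool.Agent.Lib.MP_19b52f_al

set_option linter.unusedSectionVars false

variable {A X : Type} [DecidableEq A] [DecidableEq X]

/-- length of the longest common initial segment -/
def cp : List X → List X → ℕ
  | x :: u, y :: v => if x = y then cp u v + 1 else 0
  | _, _ => 0

@[simp] theorem cp_nil_left (v : List X) : cp [] v = 0 := by cases v <;> rfl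
@[simp] theorem cp_nil_right (u : List X) : cp u [] = 0 := by cases u <;> rfl
theorem cp_cons (x y : X) (u v : List X) :
    cp (x :: u) (y :: v) = if x = y then cp u v + 1 else 0 := rfl

theorem cp_comm : ∀ u v : List X, cp u v = cp v u
  | [], v => by simp
  | u, [] => by simp
  | x :: u, y :: v => by
    rw [cp_cons, cp_cons, cp_comm u v]
    by_cases h : x = y
    · rw [if_pos h, if_pos h.symm]
    · rw [if_neg h, if_neg fun e => h e.symm]

theorem cp_le_left : ∀ u v : List X, cp u v ≤ u.length
  | [], v => by simp
  | u, [] => by simp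
  | x :: u, y :: v => by
    have := cp_le_left u v
    rw [cp_cons]
    split_ifs <;> simp [this]

theorem cp_le_right (u v : List X) : cp u v ≤ v.length := by
  rw [cp_comm]; exact cp_le_left v u

theorem cp_self : ∀ u : List X, cp u u = u.length
  | [] => by simp
  | x :: u => by rw [cp_cons, if_pos rfl, cp_self u, List.length_cons]

theorem cp_ultra : ∀ u v w : List X, min (cp u v) (cp v w) ≤ cp u w
  | [], v, w => by simp
  | u, [], w => by simp
  | u, v, [] => by simp
  | x :: u, y :: v, z :: w => by
    have := cp_ultra u v w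
    rw [cp_cons, cp_cons, cp_cons]
    by_cases h1 : x = y
    · by_cases h2 : y = z
      · rw [if_pos h1, if_pos h2, if_pos (h1.trans h2)]; omega
      · rw [if_neg h2]; omega
    · rw [if_neg h1]; omega

theorem cp_take : ∀ (k : ℕ) (u w : List X), cp (u.take k) w = min k (cp u w)
  | 0, u, w => by simp
  | _ + 1, [], w => by simp
  | _ + 1, u, [] => by simp
  | k + 1, x :: u, y :: w => by
    rw [List.take_succ_cons, cp_cons, cp_cons, cp_take k u w]
    split_ifs <;> omega

/-- tree distance -/
def td (u v : List X) : ℤ := (u.length : ℤ) + v.length - 2 * cp u v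

theorem td_comm (u v : List X) : td u v = td v u := by
  unfold td; rw [cp_comm]; ring

theorem td_self (u : List X) : td u u = 0 := by
  unfold td; rw [cp_self]; ring

theorem td_nil (u : List X) : td [] u = u.length := by
  unfold td; simp

theorem td_tri (u v w : List X) : td u w ≤ td u v + td v w := by
  have h1 := cp_ultra u v w
  have h2 := cp_le_right u v
  have h3 := cp_le_left v w
  unfold td
  omega

/-- reduced words -/
def Red (u : List X) : Prop := u.IsChain (· ≠ ·)

/-- join of two cones -/
theorem td_join (u v : List X) (hu : Red u) (hv : Red v) (m n : ℤ)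
    (hpar : (m + u.length) % 2 = (n + v.length) % 2) :
    ∃ (p : List X) (k : ℤ), Red p ∧ (k + p.length) % 2 = (m + u.length) % 2 ∧
      ∀ (w : List X) (l : ℤ), td p w ≤ l - k ↔ td u w ≤ l - m ∧ td v w ≤ l - n := by
  have huv1 := cp_le_left u v
  have huv2 := cp_le_right u v
  by_cases h1 : td u v ≤ n - m
  · refine ⟨v, n, hv, hpar.symm, fun w l => ⟨fun h => ⟨?_, h⟩, fun h => h.2⟩⟩
    have := td_tri u v w
    omega
  by_cases h2 : td u v ≤ m - n
  · refine ⟨u, m, hu, rfl, fun w l => ⟨fun h => ⟨h, ?_⟩, fun h => h.1⟩⟩
    have := td_tri v u w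
    have := td_comm u v
    omega
  unfold td at h1 h2
  obtain ⟨r, hr⟩ : ∃ r : ℕ, 2 * (r : ℤ) = n - m + (u.length + v.length - 2 * cp u v) :=
    ⟨((n - m + (u.length + v.length - 2 * cp u v)) / 2).toNat, by omega⟩
  by_cases h3 : r + cp u v ≤ u.length
  · refine ⟨u.take (u.length - r), m + r, List.IsChain.take hu _, ?_, fun w l => ?_⟩
    · rw [List.length_take]; omega
    · have e1 := cp_ultra u v w
      have e2 := cp_ultra v u w
      have e3 := cp_comm u v
      have e4 := cp_le_left u w
      have e5 := cp_le_left v w
      have e6 := cp_ultra u w v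
      have e7 := cp_comm w v
      unfold td
      rw [cp_take, List.length_take]
      omega
  · refine ⟨v.take (r + 2 * cp u v - u.length), m + r, List.IsChain.take hv _, ?_, fun w l => ?_⟩
    · rw [List.length_take]; omega
    · have e1 := cp_ultra u v w
      have e2 := cp_ultra v u w
      have e3 := cp_comm u v
      have e4 := cp_le_left u w
      have e5 := cp_le_left v w
      have e6 := cp_ultra u w v
      have e7 := cp_comm w v
      unfold td
      rw [cp_take, List.length_take]
      omega

/-- left multiplication by a letter in the free product of groups of order two -/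
def lmul (x : X) : List X → List X
  | [] => [x]
  | y :: w => if y = x then w else x :: y :: w

theorem lmul_cons (x y : X) (w : List X) :
    lmul x (y :: w) = if y = x then w else x :: y :: w := rfl

theorem red_cons_cons {x y : X} {w : List X} : Red (x :: y :: w) ↔ x ≠ y ∧ Red (y :: w) :=
  List.isChain_cons_cons

theorem Red.tail {x : X} {w : List X} (h : Red (x :: w)) : Red w := List.IsChain.tail h

theorem red_nil : Red ([] : List X) := List.isChain_nil

theorem red_single (x : X) : Red [x] := List.isChain_singleton x

theorem red_lmul (x : X) : ∀ {u : List X}, Red u → Red (lmul x u)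
  | [], _ => red_single x
  | y :: w, h => by
    rw [lmul_cons]
    split_ifs with e
    · exact h.tail
    · exact red_cons_cons.2 ⟨fun e' => e e'.symm, h⟩

theorem lmul_of_red (x : X) : ∀ {u : List X}, Red (x :: u) → lmul x u = x :: u
  | [], _ => rfl
  | y :: w, h => by
    rw [lmul_cons, if_neg fun e => (red_cons_cons.1 h).1 e.symm]

theorem lmul_cons_self (x : X) (w : List X) : lmul x (x :: w) = w := by
  rw [lmul_cons, if_pos rfl]

theorem lmul_cases (x : X) (u : List X) (hu : Red u) :
    (∃ w, u = x :: w ∧ lmul x u = w) ∨ (Red (x :: u) ∧ lmul x u = x :: u) := by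
  cases u with
  | nil => exact Or.inr ⟨red_single x, rfl⟩
  | cons y w =>
    by_cases e : y = x
    · subst e
      exact Or.inl ⟨w, rfl, lmul_cons_self y w⟩
    · have h : Red (x :: y :: w) := red_cons_cons.2 ⟨fun e' => e e'.symm, hu⟩
      exact Or.inr ⟨h, lmul_of_red x h⟩

theorem lmul_lmul (x : X) (u : List X) (hu : Red u) : lmul x (lmul x u) = u := by
  rcases lmul_cases x u hu with ⟨w, rfl, h⟩ | ⟨_, h⟩
  · rw [h, lmul_of_red x hu]
  · rw [h, lmul_cons_self]

theorem cp_of_red {x : X} {u : List X} (h : Red (x :: u)) (v : List X) : cp u (x :: v) = 0 := by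
  cases u with
  | nil => simp
  | cons y w => rw [cp_cons, if_neg fun e => (red_cons_cons.1 h).1 e.symm]

theorem td_lmul (x : X) (u v : List X) (hu : Red u) (hv : Red v) :
    td (lmul x u) (lmul x v) = td u v := by
  rcases lmul_cases x u hu with ⟨w, rfl, h⟩ | ⟨h0, h⟩ <;>
    rcases lmul_cases x v hv with ⟨w', rfl, h'⟩ | ⟨h0', h'⟩ <;> rw [h, h'] <;> unfold td
  · rw [cp_cons, if_pos rfl]; simp only [List.length_cons]; push_cast; ring
  · rw [cp_of_red hu, cp_comm, cp_of_red h0']; simp only [List.length_cons]; push_cast; ring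
  · rw [cp_of_red h0, cp_comm, cp_of_red hv]; simp only [List.length_cons]; push_cast; ring
  · rw [cp_cons, if_pos rfl]; simp only [List.length_cons]; push_cast; ring

/-- Data of a complete square complex with involutive generators: `a x = s a x * t a x`. -/
structure Datum (A X : Type) where
  s : A → X → X
  t : A → X → A
  s_s : ∀ a x, s a (s a x) = x
  t_s : ∀ a x, t a (s a x) = t a x
  t_t : ∀ a x, t (t a x) x = a
  s_t : ∀ a x, s (t a x) x = s a x

namespace Datum

/-- exchange of the two alphabets -/
def swap (D : Datum A X) : Datum X A where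
  s x a := D.t a x
  t x a := D.s a x
  s_s x a := D.t_t a x
  t_s x a := D.s_t a x
  t_t x a := D.s_s a x
  s_t x a := D.t_s a x

variable (D : Datum A X)

theorem s_ts (a : A) (x : X) : D.s (D.t a x) (D.s a x) = x := by
  rw [← D.t_s a x, D.s_t, D.s_s]

theorem t_ts (a : A) (x : X) : D.t (D.t a x) (D.s a x) = a := by
  rw [← D.t_s a x, D.t_t]

theorem s_inj (a : A) {x y : X} (h : D.s a x = D.s a y) : x = y := by
  rw [← D.s_s a x, h, D.s_s]

/-- action of a letter of `A` on words in `X` -/
def act : A → List X → List X
  | _, [] => []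
  | a, x :: w => D.s a x :: act (D.t a x) w

/-- section of a letter of `A` at a word in `X` -/
def sec : A → List X → A
  | a, [] => a
  | a, x :: w => sec (D.t a x) w

theorem act_act : ∀ (a : A) (w : List X), D.act a (D.act a w) = w
  | _, [] => rfl
  | a, x :: w => by
    show D.s a (D.s a x) :: D.act (D.t a (D.s a x)) (D.act (D.t a x) w) = x :: w
    rw [D.s_s, D.t_s, act_act]

theorem length_act : ∀ (a : A) (w : List X), (D.act a w).length = w.length
  | _, [] => rfl
  | a, x :: w => by
    show (D.act (D.t a x) w).length + 1 = w.length + 1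
    rw [length_act]

theorem red_act : ∀ (a : A) {w : List X}, Red w → Red (D.act a w)
  | _, [], _ => red_nil
  | a, [x], _ => red_single _
  | a, x :: y :: w, h => by
    have h1 := red_act (D.t a x) h.tail
    show Red (D.s a x :: D.s (D.t a x) y :: D.act (D.t (D.t a x) y) w)
    refine red_cons_cons.2 ⟨fun e => (red_cons_cons.1 h).1 ?_, h1⟩
    rw [← D.s_t a x] at e
    exact D.s_inj _ e

theorem cp_act : ∀ (a : A) (u v : List X), cp (D.act a u) (D.act a v) = cp u v
  | _, [], v => by simp [act]
  | _, u, [] => by simp [act]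
  | a, x :: u, y :: v => by
    show cp (D.s a x :: D.act (D.t a x) u) (D.s a y :: D.act (D.t a y) v) = _
    rw [cp_cons, cp_cons]
    by_cases e : x = y
    · subst e
      rw [if_pos rfl, if_pos rfl, cp_act]
    · rw [if_neg e, if_neg fun e' => e (D.s_inj a e')]

theorem td_act (a : A) (u v : List X) : td (D.act a u) (D.act a v) = td u v := by
  unfold td
  rw [D.cp_act, D.length_act, D.length_act]

/-- the square relation on the tree of `X` -/
theorem act_lmul (a : A) (x : X) (u : List X) (hu : Red u) :
    D.act a (lmul x u) = lmul (D.s a x) (D.act (D.t a x) u) := by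
  rcases lmul_cases x u hu with ⟨w, rfl, h⟩ | ⟨h0, h⟩
  · rw [h]
    show _ = lmul (D.s a x) (D.s (D.t a x) x :: D.act (D.t (D.t a x) x) w)
    rw [D.s_t, D.t_t, lmul_cons_self]
  · rw [h]
    exact (lmul_of_red _ (D.red_act a h0)).symm

end Datum

/-- vertices of the tree -/
def W (X : Type) : Type := {u : List X // Red u}

/-- base vertex -/
def W.o : W X := ⟨[], List.isChain_nil⟩

/-- left multiplication as a permutation of the tree -/
def mulP (x : X) : Equiv.Perm (W X) :=
  Function.Involutive.toPerm (fun u => ⟨lmul x u.1, red_lmul x u.2⟩)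
    fun u => Subtype.ext (lmul_lmul x u.1 u.2)

/-- automaton action as a permutation of the tree -/
def Datum.actP (D : Datum A X) (a : A) : Equiv.Perm (W X) :=
  Function.Involutive.toPerm (fun u => ⟨D.act a u.1, D.red_act a u.2⟩)
    fun u => Subtype.ext (D.act_act a u.1)

theorem mulP_val (x : X) (u : W X) : (mulP x u).1 = lmul x u.1 := rfl

theorem actP_val (D : Datum A X) (a : A) (u : W X) : (D.actP a u).1 = D.act a u.1 := rfl

theorem mulP_sq (x : X) : mulP x * mulP x = 1 :=
  Equiv.ext fun u => Subtype.ext (lmul_lmul x u.1 u.2)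

theorem actP_sq (D : Datum A X) (a : A) : D.actP a * D.actP a = 1 :=
  Equiv.ext fun u => Subtype.ext (D.act_act a u.1)

theorem actP_mulP (D : Datum A X) (a : A) (x : X) :
    D.actP a * mulP x = mulP (D.s a x) * D.actP (D.t a x) :=
  Equiv.ext fun u => Subtype.ext (D.act_lmul a x u.1 u.2)

theorem mulP_actP (D : Datum A X) (a : A) (x : X) :
    mulP a * D.swap.actP x = D.swap.actP (D.s a x) * mulP (D.t a x) := by
  have h := actP_mulP D.swap (D.s a x) (D.t a x)
  have e1 : D.swap.s (D.s a x) (D.t a x) = a := D.t_ts a x
  have e2 : D.swap.t (D.s a x) (D.t a x) = x := D.s_ts a x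
  rw [e1, e2] at h
  exact h.symm

end Pool.Agent.Lib.MP_19b52f_al
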