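import Pool.Agent.Lib.MP_19b52f_al.Defs
import Pool.Agent.Lib.MP_19b52f_al.Tree

/-! A group acting simply transitively on a product of two tree lattices is a Garside group. -/

namespace Pool.Agent.Lib.MP_19b52f_al

set_option linter.unusedSectionVars false

variable {A X : Type} [DecidableEq A] [DecidableEq X] {G : Type} [Group G]

/-- Generators satisfying the relations of a datum. -/
structure Gens (D : Datum A X) (G : Type) [Group G] where
  α : A → G
  β : X → G
  comm : ∀ a x, α a * β x = β (D.s a x) * α (D.t a x)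

namespace Gens

variable {D : Datum A X} (R : Gens D G)

theorem comm' (x : X) (a : A) : R.β x * R.α a = R.α (D.t a x) * R.β (D.s a x) := by
  rw [R.comm, D.s_ts, D.t_ts]

/-- exchange of the two alphabets -/
def swap : Gens D.swap G where
  α := R.β
  β := R.α
  comm := R.comm'

theorem act_prod : ∀ (a : A) (w : List X),
    R.α a * (w.map R.β).prod = ((D.act a w).map R.β).prod * R.α (D.sec a w)
  | a, [] => by simp [Datum.act, Datum.sec]
  | a, x :: w => by
    show R.α a * (List.map R.β (x :: w)).prod =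
      (List.map R.β (D.s a x :: D.act (D.t a x) w)).prod * R.α (D.sec (D.t a x) w)
    rw [List.map_cons, List.prod_cons, List.map_cons, List.prod_cons, ← mul_assoc, R.comm,
      mul_assoc, act_prod, mul_assoc]

end Gens

/-- A group generated by two alphabets with the relations of a datum, together with its actions
on the two trees and its two length homomorphisms. -/
structure Model (D : Datum A X) (G : Type) [Group G] extends Gens D G where
  a0 : A
  x0 : X
  sqA : ∀ a, α a * α a = α a0 * α a0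
  sqX : ∀ x, β x * β x = β x0 * β x0
  gen : ∀ H : Subgroup G, (∀ a, α a ∈ H) → (∀ x, β x ∈ H) → ∀ g, g ∈ H
  ρA : G →* Equiv.Perm (W A)
  ρX : G →* Equiv.Perm (W X)
  νA : G →* Multiplicative ℤ
  νX : G →* Multiplicative ℤ
  ρA_α : ∀ a, ρA (α a) = mulP a
  ρA_β : ∀ x, ρA (β x) = D.swap.actP x
  ρX_α : ∀ a, ρX (α a) = D.actP a
  ρX_β : ∀ x, ρX (β x) = mulP x
  νA_α : ∀ a, νA (α a) = Multiplicative.ofAdd 1
  νA_β : ∀ x, νA (β x) = 1
  νX_α : ∀ a, νX (α a) = 1
  νX_β : ∀ x, νX (β x) = Multiplicative.ofAdd 1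

namespace Model

variable {D : Datum A X} (R : Model D G)

/-- exchange of the two alphabets -/
def swap : Model D.swap G where
  toGens := R.toGens.swap
  a0 := R.x0
  x0 := R.a0
  sqA := R.sqX
  sqX := R.sqA
  gen H h1 h2 := R.gen H h2 h1
  ρA := R.ρX
  ρX := R.ρA
  νA := R.νX
  νX := R.νA
  ρA_α := R.ρX_β
  ρA_β := R.ρX_α
  ρX_α := R.ρA_β
  ρX_β := R.ρA_α
  νA_α := R.νX_β
  νA_β := R.νX_α
  νX_α := R.νA_β
  νX_β := R.νA_α

/-- the central element attached to `A` -/
def dA : G := R.α R.a0 * R.α R.a0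

/-- the central element attached to `X` -/
def dX : G := R.β R.x0 * R.β R.x0

theorem dA_central : R.dA ∈ Subgroup.center G := by
  rw [Subgroup.mem_center_iff]
  intro g
  refine (Subgroup.mem_centralizer_singleton_iff.1
    (R.gen (Subgroup.centralizer {R.dA}) (fun a => ?_) (fun x => ?_) g))
  · rw [Subgroup.mem_centralizer_singleton_iff, dA, ← R.sqA a, mul_assoc]
  · rw [Subgroup.mem_centralizer_singleton_iff]
    have h : R.dA * R.β x = R.β x * R.dA := by
      rw [dA, mul_assoc, R.comm, ← mul_assoc, R.comm, D.s_s, D.t_s, mul_assoc, R.sqA]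
    exact h.symm

theorem dX_central : R.dX ∈ Subgroup.center G := R.swap.dA_central

/-- level with respect to `A` -/
def lA (g : G) : ℤ := Multiplicative.toAdd (R.νA g)

/-- level with respect to `X` -/
def lX (g : G) : ℤ := Multiplicative.toAdd (R.νX g)

theorem lA_mul (g h : G) : R.lA (g * h) = R.lA g + R.lA h := by
  simp [lA]

theorem lA_one : R.lA 1 = 0 := by simp [lA]

theorem lA_prodα (u : List A) : R.lA (u.map R.α).prod = u.length := by
  induction u with
  | nil => simp [lA]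
  | cons a u ih =>
    rw [List.map_cons, List.prod_cons, lA_mul, ih, lA, R.νA_α]
    simp [add_comm]

theorem lA_prodβ (v : List X) : R.lA (v.map R.β).prod = 0 := by
  induction v with
  | nil => simp [lA]
  | cons a u ih =>
    rw [List.map_cons, List.prod_cons, lA_mul, ih, lA, R.νA_β]
    simp

theorem lA_dA (i : ℤ) : R.lA (R.dA ^ i) = 2 * i := by
  simp only [lA, dA, map_zpow, map_mul, R.νA_α, toAdd_zpow, toAdd_mul, toAdd_ofAdd, smul_eq_mul]
  ring

theorem lA_dX (i : ℤ) : R.lA (R.dX ^ i) = 0 := by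
  simp [lA, dX, R.νA_β]

theorem ρA_dA : R.ρA R.dA = 1 := by rw [dA, map_mul, R.ρA_α, mulP_sq]

theorem ρA_dX : R.ρA R.dX = 1 := by rw [dX, map_mul, R.ρA_β, actP_sq]

theorem ρA_prodα (u : List A) (hu : Red u) : (R.ρA (u.map R.α).prod W.o).1 = u := by
  induction u with
  | nil => simp [W.o]
  | cons a u ih =>
    rw [List.map_cons, List.prod_cons, map_mul, Equiv.Perm.mul_apply, R.ρA_α, mulP_val,
      ih hu.tail, lmul_of_red a hu]

theorem ρA_prodβ (v : List X) : R.ρA (v.map R.β).prod W.o = W.o := by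
  induction v with
  | nil => simp
  | cons a u ih =>
    rw [List.map_cons, List.prod_cons, map_mul, Equiv.Perm.mul_apply, ih, R.ρA_β]
    rfl

theorem ρA_iso (g : G) (u v : W A) : td (R.ρA g u).1 (R.ρA g v).1 = td u.1 v.1 := by
  let H : Subgroup G :=
    { carrier := {g | ∀ u v : W A, td (R.ρA g u).1 (R.ρA g v).1 = td u.1 v.1}
      mul_mem' := fun {g h} hg hh u v => by
        rw [map_mul, Equiv.Perm.mul_apply, Equiv.Perm.mul_apply, hg, hh]
      one_mem' := fun u v => by simp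
      inv_mem' := fun {g} hg u v => by
        rw [← hg, ← Equiv.Perm.mul_apply, ← Equiv.Perm.mul_apply, ← map_mul, mul_inv_cancel]
        simp }
  refine R.gen H (fun a u v => ?_) (fun x u v => ?_) g u v
  · rw [R.ρA_α, mulP_val, mulP_val, td_lmul a _ _ u.2 v.2]
  · rw [R.ρA_β, actP_val, actP_val, Datum.td_act]

theorem mul_prod_lmul (a : A) (u : List A) (hu : Red u) :
    ∃ e : ℤ, R.α a * (u.map R.α).prod = R.dA ^ e * ((lmul a u).map R.α).prod := by
  rcases lmul_cases a u hu with ⟨w, rfl, h⟩ | ⟨_, h⟩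
  · refine ⟨1, ?_⟩
    rw [h, List.map_cons, List.prod_cons, ← mul_assoc, R.sqA, zpow_one, dA]
  · refine ⟨0, ?_⟩
    rw [h, List.map_cons, List.prod_cons, zpow_zero, one_mul]

/-- normal form -/
def NF (g : G) : Prop := ∃ (i j : ℤ) (u : List A) (v : List X), Red u ∧ Red v ∧
  g = R.dA ^ i * R.dX ^ j * ((u.map R.α).prod * (v.map R.β).prod)

theorem central_comm {z : G} (hz : z ∈ Subgroup.center G) (i : ℤ) (g : G) :
    g * z ^ i = z ^ i * g :=
  Subgroup.mem_center_iff.1 (Subgroup.zpow_mem _ hz i) g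

theorem NF_dA {g : G} (h : R.NF g) (e : ℤ) : R.NF (R.dA ^ e * g) := by
  obtain ⟨i, j, u, v, hu, hv, rfl⟩ := h
  exact ⟨e + i, j, u, v, hu, hv, by rw [zpow_add]; simp only [mul_assoc]⟩

theorem NF_dX {g : G} (h : R.NF g) (e : ℤ) : R.NF (R.dX ^ e * g) := by
  obtain ⟨i, j, u, v, hu, hv, rfl⟩ := h
  refine ⟨i, e + j, u, v, hu, hv, ?_⟩
  rw [zpow_add, ← mul_assoc (R.dX ^ e), ← mul_assoc (R.dX ^ e), central_comm R.dA_central i]
  simp only [mul_assoc]

theorem NF_α {g : G} (h : R.NF g) (a : A) : R.NF (R.α a * g) := by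
  obtain ⟨i, j, u, v, hu, hv, rfl⟩ := h
  obtain ⟨e, he⟩ := R.mul_prod_lmul a u hu
  have h1 : R.NF (((lmul a u).map R.α).prod * (v.map R.β).prod) :=
    ⟨0, 0, _, v, red_lmul a hu, hv, by simp⟩
  have h2 := R.NF_dA (R.NF_dX (R.NF_dA h1 e) j) i
  rw [← mul_assoc (R.dA ^ e), ← he] at h2
  rw [← mul_assoc, ← mul_assoc (R.α a), central_comm R.dA_central i, mul_assoc (R.dA ^ i),
    central_comm R.dX_central j]
  simpa only [mul_assoc] using h2

theorem NF_β {g : G} (h : R.NF g) (x : X) : R.NF (R.β x * g) := by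
  obtain ⟨i, j, u, v, hu, hv, rfl⟩ := h
  obtain ⟨e, he⟩ := R.swap.mul_prod_lmul (D.swap.sec x u) v hv
  have he' : R.β (D.swap.sec x u) * (v.map R.β).prod =
    R.dX ^ e * ((lmul (D.swap.sec x u) v).map R.β).prod := he
  have ha : R.β x * (u.map R.α).prod =
    ((D.swap.act x u).map R.α).prod * R.β (D.swap.sec x u) := R.toGens.swap.act_prod x u
  have h1 : R.NF (((D.swap.act x u).map R.α).prod *
      ((lmul (D.swap.sec x u) v).map R.β).prod) :=
    ⟨0, 0, _, _, D.swap.red_act x hu, red_lmul (D.swap.sec x u) hv, by simp⟩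
  have h2 := R.NF_dA (R.NF_dX (R.NF_dX h1 e) j) i
  rw [← mul_assoc (R.dX ^ e), ← central_comm R.dX_central e, mul_assoc _ (R.dX ^ e), ← he',
    ← mul_assoc _ (R.β _), ← ha] at h2
  rw [← mul_assoc, ← mul_assoc (R.β x), central_comm R.dA_central i, mul_assoc (R.dA ^ i),
    central_comm R.dX_central j]
  simpa only [mul_assoc] using h2

theorem nf (g : G) : R.NF g := by
  let H : Subgroup G :=
    { carrier := {g | ∀ h, R.NF (g * h) ↔ R.NF h}
      mul_mem' := fun {g h} hg hh k => by rw [mul_assoc, hg, hh]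
      one_mem' := fun k => by rw [one_mul]
      inv_mem' := fun {g} hg k => by rw [← hg, ← mul_assoc, mul_inv_cancel, one_mul] }
  have key : g ∈ H := by
    refine R.gen H (fun a k => ⟨fun h => ?_, fun h => R.NF_α h a⟩)
      (fun x k => ⟨fun h => ?_, fun h => R.NF_β h x⟩) g
    · have := R.NF_dA (R.NF_α h a) (-1)
      rwa [← mul_assoc (R.α a), R.sqA, ← dA, zpow_neg_one, inv_mul_cancel_left] at this
    · have := R.NF_dX (R.NF_β h x) (-1)
      rwa [← mul_assoc (R.β x), R.sqX, ← dX, zpow_neg_one, inv_mul_cancel_left] at this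
  have := (key 1).2 ⟨0, 0, [], [], red_nil, red_nil, by simp⟩
  rwa [mul_one] at this

/-- position on the tree of `A` -/
def pA (g : G) : List A := (R.ρA g W.o).1

/-- position on the tree of `X` -/
def pX (g : G) : List X := (R.ρX g W.o).1

section eval

variable (i j : ℤ) (u : List A) (v : List X)

theorem lA_nf : R.lA (R.dA ^ i * R.dX ^ j * ((u.map R.α).prod * (v.map R.β).prod)) =
    2 * i + u.length := by
  rw [lA_mul, lA_mul, lA_mul, lA_dA, lA_dX, lA_prodα, lA_prodβ]; ring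

theorem lX_nf : R.lX (R.dA ^ i * R.dX ^ j * ((u.map R.α).prod * (v.map R.β).prod)) =
    2 * j + v.length := by
  have h1 : R.lX (R.dA ^ i) = 0 := R.swap.lA_dX i
  have h2 : R.lX (R.dX ^ j) = 2 * j := R.swap.lA_dA j
  have h3 : R.lX (u.map R.α).prod = 0 := R.swap.lA_prodβ u
  have h4 : R.lX (v.map R.β).prod = v.length := R.swap.lA_prodα v
  have hm : ∀ g h, R.lX (g * h) = R.lX g + R.lX h := R.swap.lA_mul
  rw [hm, hm, hm, h1, h2, h3, h4]; ring

theorem pA_nf (hu : Red u) :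
    R.pA (R.dA ^ i * R.dX ^ j * ((u.map R.α).prod * (v.map R.β).prod)) = u := by
  rw [pA, map_mul, map_mul, map_mul, map_zpow, map_zpow, ρA_dA, ρA_dX, one_zpow, one_zpow,
    one_mul, one_mul, Equiv.Perm.mul_apply, ρA_prodβ, R.ρA_prodα u hu]

theorem pX_nf (hv : Red v) :
    R.pX (R.dA ^ i * R.dX ^ j * ((u.map R.α).prod * (v.map R.β).prod)) =
      (R.ρX (u.map R.α).prod ⟨v, hv⟩).1 := by
  have h1 : R.ρX R.dA = 1 := R.swap.ρA_dX
  have h2 : R.ρX R.dX = 1 := R.swap.ρA_dA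
  have h3 : R.ρX (v.map R.β).prod W.o = ⟨v, hv⟩ := Subtype.ext (R.swap.ρA_prodα v hv)
  rw [pX, map_mul, map_mul, map_mul, map_zpow, map_zpow, h1, h2, one_zpow, one_zpow,
    one_mul, one_mul, Equiv.Perm.mul_apply, h3]

theorem length_ρX (w : W X) : (R.ρX (u.map R.α).prod w).1.length = w.1.length := by
  have h1 : R.ρX (u.map R.α).prod W.o = W.o := R.swap.ρA_prodβ u
  have h2 : td (R.ρX (u.map R.α).prod W.o).1 (R.ρX (u.map R.α).prod w).1 = td W.o.1 w.1 :=
    R.swap.ρA_iso _ _ _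
  rw [h1] at h2
  have h3 := td_nil (R.ρX (u.map R.α).prod w).1
  have h4 := td_nil w.1
  have e : (W.o : W X).1 = [] := rfl
  rw [e] at h2
  omega

end eval

theorem parity (g : G) :
    (R.lA g + (R.pA g).length) % 2 = 0 ∧ (R.lX g + (R.pX g).length) % 2 = 0 := by
  obtain ⟨i, j, u, v, hu, hv, rfl⟩ := R.nf g
  rw [lA_nf, lX_nf, R.pA_nf i j u v hu, R.pX_nf i j u v hv, length_ρX]
  simp only
  omega

theorem surj (u : List A) (hu : Red u) (m : ℤ) (v : List X) (hv : Red v) (n : ℤ)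
    (h1 : (m + u.length) % 2 = 0) (h2 : (n + v.length) % 2 = 0) :
    ∃ g, R.pA g = u ∧ R.lA g = m ∧ R.pX g = v ∧ R.lX g = n := by
  set w : W X := (R.ρX (u.map R.α).prod)⁻¹ ⟨v, hv⟩ with hw
  have hw' : R.ρX (u.map R.α).prod w = ⟨v, hv⟩ := by simp [hw]
  have hl : w.1.length = v.length := by rw [← R.length_ρX u w, hw']
  refine ⟨R.dA ^ ((m - u.length) / 2) * R.dX ^ ((n - v.length) / 2) *
    ((u.map R.α).prod * (w.1.map R.β).prod), R.pA_nf _ _ _ _ hu, ?_, ?_, ?_⟩
  · rw [lA_nf]; omega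
  · rw [R.pX_nf _ _ _ _ w.2]
    exact congrArg Subtype.val hw'
  · rw [lX_nf, hl]; omega

/-- the left invariant order -/
def le (g h : G) : Prop :=
  td (R.pA g) (R.pA h) ≤ R.lA h - R.lA g ∧ td (R.pX g) (R.pX h) ≤ R.lX h - R.lX g

theorem le_refl (g : G) : R.le g g := by
  simp [le, td_self]

theorem le_trans {g h k : G} (h1 : R.le g h) (h2 : R.le h k) : R.le g k := by
  have := td_tri (R.pA g) (R.pA h) (R.pA k)
  have := td_tri (R.pX g) (R.pX h) (R.pX k)
  obtain ⟨_, _⟩ := h1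
  obtain ⟨_, _⟩ := h2
  constructor <;> omega

theorem le_mul (k g h : G) : R.le (k * g) (k * h) ↔ R.le g h := by
  have h1 : td (R.pA (k * g)) (R.pA (k * h)) = td (R.pA g) (R.pA h) := by
    simp only [pA, map_mul, Equiv.Perm.mul_apply, ρA_iso]
  have h2 : td (R.pX (k * g)) (R.pX (k * h)) = td (R.pX g) (R.pX h) := by
    simp only [pX, map_mul, Equiv.Perm.mul_apply]
    exact R.swap.ρA_iso _ _ _
  have hm : ∀ g h, R.lX (g * h) = R.lX g + R.lX h := R.swap.lA_mul
  unfold le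
  rw [h1, h2, lA_mul, lA_mul, hm, hm]
  constructor <;> rintro ⟨_, _⟩ <;> constructor <;> omega

theorem exists_join (g h : G) : ∃ j, ∀ k, R.le j k ↔ R.le g k ∧ R.le h k := by
  have pg := R.parity g
  have ph := R.parity h
  obtain ⟨p, m, hp, hm, H1⟩ := td_join (R.pA g) (R.pA h) (R.ρA g W.o).2 (R.ρA h W.o).2
    (R.lA g) (R.lA h) (by omega)
  obtain ⟨q, n, hq, hn, H2⟩ := td_join (R.pX g) (R.pX h) (R.ρX g W.o).2 (R.ρX h W.o).2
    (R.lX g) (R.lX h) (by omega)
  obtain ⟨j, e1, e2, e3, e4⟩ := R.surj p hp m q hq n (by omega) (by omega)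
  refine ⟨j, fun k => ?_⟩
  unfold le
  rw [e1, e2, e3, e4, H1, H2]
  tauto

theorem exists_meet (g h : G) : ∃ j, ∀ k, R.le k j ↔ R.le k g ∧ R.le k h := by
  have pg := R.parity g
  have ph := R.parity h
  obtain ⟨p, m, hp, hm, H1⟩ := td_join (R.pA g) (R.pA h) (R.ρA g W.o).2 (R.ρA h W.o).2
    (-R.lA g) (-R.lA h) (by omega)
  obtain ⟨q, n, hq, hn, H2⟩ := td_join (R.pX g) (R.pX h) (R.ρX g W.o).2 (R.ρX h W.o).2
    (-R.lX g) (-R.lX h) (by omega)
  obtain ⟨j, e1, e2, e3, e4⟩ := R.surj p hp (-m) q hq (-n) (by omega) (by omega)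
  refine ⟨j, fun k => ?_⟩
  have a1 := H1 (R.pA k) (-R.lA k)
  have a2 := H2 (R.pX k) (-R.lX k)
  unfold le
  rw [e1, e2, e3, e4, td_comm _ p, td_comm _ q, td_comm _ (R.pA g), td_comm _ (R.pA h),
    td_comm _ (R.pX g), td_comm _ (R.pX h)]
  omega

/-- the positive monoid -/
def M : Submonoid G := Submonoid.closure (Set.range R.α ∪ Set.range R.β)

theorem α_mem (a : A) : R.α a ∈ R.M := Submonoid.subset_closure (Or.inl ⟨a, rfl⟩)

theorem β_mem (x : X) : R.β x ∈ R.M := Submonoid.subset_closure (Or.inr ⟨x, rfl⟩)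

theorem le_one_nf (i j : ℤ) (u : List A) (v : List X) (hu : Red u) (hv : Red v) :
    R.le 1 (R.dA ^ i * R.dX ^ j * ((u.map R.α).prod * (v.map R.β).prod)) ↔ 0 ≤ i ∧ 0 ≤ j := by
  have h1 : R.pA 1 = [] := by simp [pA, W.o]
  have h2 : R.pX 1 = [] := by simp [pX, W.o]
  have h3 : R.lX 1 = 0 := R.swap.lA_one
  unfold le
  rw [h1, h2, h3, lA_one, td_nil, td_nil, lA_nf, lX_nf, R.pA_nf i j u v hu, R.pX_nf i j u v hv,
    length_ρX]
  simp only
  omega

theorem nf_mem (i j : ℤ) (u : List A) (v : List X) (hi : 0 ≤ i) (hj : 0 ≤ j) :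
    R.dA ^ i * R.dX ^ j * ((u.map R.α).prod * (v.map R.β).prod) ∈ R.M := by
  obtain ⟨i, rfl⟩ := Int.eq_ofNat_of_zero_le hi
  obtain ⟨j, rfl⟩ := Int.eq_ofNat_of_zero_le hj
  rw [zpow_natCast, zpow_natCast]
  refine mul_mem (mul_mem (pow_mem (mul_mem (R.α_mem _) (R.α_mem _)) _)
    (pow_mem (mul_mem (R.β_mem _) (R.β_mem _)) _)) (mul_mem (list_prod_mem ?_) (list_prod_mem ?_))
  · intro g hg
    obtain ⟨a, _, rfl⟩ := List.mem_map.1 hg
    exact R.α_mem a
  · intro g hg
    obtain ⟨a, _, rfl⟩ := List.mem_map.1 hg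
    exact R.β_mem a

theorem mem_M (g : G) : g ∈ R.M ↔ R.le 1 g := by
  constructor
  · intro hg
    induction hg using Submonoid.closure_induction with
    | mem g hg =>
      rcases hg with ⟨a, rfl⟩ | ⟨x, rfl⟩
      · have := (R.le_one_nf 0 0 [a] [] (red_single a) red_nil).2 ⟨le_rfl, le_rfl⟩
        simpa using this
      · have := (R.le_one_nf 0 0 [] [x] red_nil (red_single x)).2 ⟨le_rfl, le_rfl⟩
        simpa using this
    | one => exact R.le_refl 1
    | mul g h _ _ hg hh =>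
      refine R.le_trans hg ?_
      have := (R.le_mul g 1 h).2 hh
      rwa [mul_one] at this
  · intro hg
    obtain ⟨i, j, u, v, hu, hv, rfl⟩ := R.nf g
    obtain ⟨hi, hj⟩ := (R.le_one_nf i j u v hu hv).1 hg
    exact R.nf_mem i j u v hi hj

theorem left_iff (a b : R.M) : (∃ c, a * c = b) ↔ R.le a b := by
  constructor
  · rintro ⟨c, rfl⟩
    have := (R.le_mul a 1 c).2 ((R.mem_M c).1 c.2)
    rwa [mul_one] at this
  · intro h
    refine ⟨⟨(a : G)⁻¹ * b, (R.mem_M _).2 ?_⟩, Subtype.ext (by simp)⟩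
    have := (R.le_mul (a : G)⁻¹ a b).2 h
    rwa [inv_mul_cancel] at this

theorem right_iff (a b : R.M) : (∃ c, c * a = b) ↔ R.le (b : G)⁻¹ (a : G)⁻¹ := by
  constructor
  · rintro ⟨c, rfl⟩
    have := (R.le_mul ((c : G) * a)⁻¹ 1 c).2 ((R.mem_M c).1 c.2)
    simpa using this
  · intro h
    refine ⟨⟨(b : G) * (a : G)⁻¹, (R.mem_M _).2 ?_⟩, Subtype.ext (by simp)⟩
    have := (R.le_mul (b : G) _ _).2 h
    rwa [mul_inv_cancel] at this

theorem le_one_inv (g : G) : R.le 1 g ↔ R.le g⁻¹ 1 := by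
  have := R.le_mul g⁻¹ 1 g
  rw [mul_one, inv_mul_cancel] at this
  exact this.symm

theorem level_nonneg {g : G} (hg : g ∈ R.M) : 0 ≤ R.lA g ∧ 0 ≤ R.lX g := by
  obtain ⟨i, j, u, v, hu, hv, rfl⟩ := R.nf g
  obtain ⟨hi, hj⟩ := (R.le_one_nf i j u v hu hv).1 ((R.mem_M _).1 hg)
  rw [lA_nf, lX_nf]
  omega

theorem eq_one_of_level {g : G} (hg : g ∈ R.M) (h : R.lA g + R.lX g ≤ 0) : g = 1 := by
  obtain ⟨i, j, u, v, hu, hv, rfl⟩ := R.nf g
  obtain ⟨hi, hj⟩ := (R.le_one_nf i j u v hu hv).1 ((R.mem_M _).1 hg)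
  rw [lA_nf, lX_nf] at h
  have h1 : i = 0 := by omega
  have h2 : j = 0 := by omega
  have h3 : u = [] := List.length_eq_zero_iff.1 (by omega)
  have h4 : v = [] := List.length_eq_zero_iff.1 (by omega)
  subst h1 h2 h3 h4
  simp

theorem eq_one_of_mul {c e : R.M} (h : c * e = 1) : c = 1 := by
  have hm : ∀ g h, R.lX (g * h) = R.lX g + R.lX h := R.swap.lA_mul
  have h0 : R.lX 1 = 0 := R.swap.lA_one
  have h' : (c : G) * e = 1 := congrArg Subtype.val h
  have h1 := R.lA_mul c e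
  have h2 := hm c e
  rw [h', lA_one] at h1
  rw [h', h0] at h2
  have h3 := R.level_nonneg e.2
  exact Subtype.ext (R.eq_one_of_level c.2 (by omega))

theorem isGarsideMonoid [Finite A] [Finite X] : IsGarsideMonoid R.M where
  atomic := by
    have hm : ∀ g h, R.lX (g * h) = R.lX g + R.lX h := R.swap.lA_mul
    have h0 : R.lX 1 = 0 := R.swap.lA_one
    refine ⟨fun a => (R.lA a + R.lX a).toNat, fun a => ⟨fun h => ?_, ?_⟩, fun a b => ?_⟩
    · exact Subtype.ext (R.eq_one_of_level a.2 (by simpa using h))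
    · rintro rfl
      simp [lA_one, h0]
    · have h1 := R.level_nonneg a.2
      have h2 := R.level_nonneg b.2
      simp only [Submonoid.coe_mul, lA_mul, hm]
      omega
  fg := (Monoid.fg_iff_submonoid_fg _).2 ((Submonoid.fg_iff _).2
    ⟨_, rfl, (Set.finite_range _).union (Set.finite_range _)⟩)
  cancel_left a b c h := mul_left_cancel h
  cancel_right a b c h := mul_right_cancel h
  lattice_left := by
    refine ⟨fun a => ⟨1, mul_one a⟩, ?_, ?_, fun a b => ?_, fun a b => ?_⟩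
    · rintro a b c ⟨e, rfl⟩ ⟨f, rfl⟩
      exact ⟨e * f, (mul_assoc _ _ _).symm⟩
    · rintro a b ⟨e, rfl⟩ ⟨f, hf⟩
      rw [mul_assoc, mul_eq_left] at hf
      rw [R.eq_one_of_mul hf, mul_one]
    · obtain ⟨j, hj⟩ := R.exists_join a b
      have h := (hj j).1 (R.le_refl j)
      refine ⟨⟨j, (R.mem_M j).2 (R.le_trans ((R.mem_M a).1 a.2) h.1)⟩, ?_, ?_, fun c h1 h2 => ?_⟩
      · exact (R.left_iff _ _).2 h.1
      · exact (R.left_iff _ _).2 h.2
      · exact (R.left_iff _ _).2 ((hj c).2 ⟨(R.left_iff _ _).1 h1, (R.left_iff _ _).1 h2⟩)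
    · obtain ⟨j, hj⟩ := R.exists_meet a b
      have h := (hj j).1 (R.le_refl j)
      refine ⟨⟨j, (R.mem_M j).2 ((hj 1).2 ⟨(R.mem_M a).1 a.2, (R.mem_M b).1 b.2⟩)⟩, ?_, ?_,
        fun c h1 h2 => ?_⟩
      · exact (R.left_iff _ _).2 h.1
      · exact (R.left_iff _ _).2 h.2
      · exact (R.left_iff _ _).2 ((hj c).2 ⟨(R.left_iff _ _).1 h1, (R.left_iff _ _).1 h2⟩)
  lattice_right := by
    refine ⟨fun a => ⟨1, one_mul a⟩, ?_, ?_, fun a b => ?_, fun a b => ?_⟩
    · rintro a b c ⟨e, rfl⟩ ⟨f, rfl⟩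
      exact ⟨f * e, mul_assoc _ _ _⟩
    · rintro a b ⟨e, rfl⟩ ⟨f, hf⟩
      rw [← mul_assoc, mul_eq_right] at hf
      have hf1 := R.eq_one_of_mul hf
      rw [hf1, one_mul] at hf
      rw [hf, one_mul]
    · obtain ⟨j, hj⟩ := R.exists_meet (a : G)⁻¹ (b : G)⁻¹
      have h := (hj j).1 (R.le_refl j)
      have hjM : j⁻¹ ∈ R.M := by
        rw [mem_M, le_one_inv, inv_inv]
        exact R.le_trans h.1 ((R.le_one_inv a).1 ((R.mem_M a).1 a.2))
      refine ⟨⟨j⁻¹, hjM⟩, ?_, ?_, fun c h1 h2 => ?_⟩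
      · exact (R.right_iff _ _).2 (by simpa using h.1)
      · exact (R.right_iff _ _).2 (by simpa using h.2)
      · refine (R.right_iff _ _).2 ?_
        simpa using (hj _).2 ⟨(R.right_iff _ _).1 h1, (R.right_iff _ _).1 h2⟩
    · obtain ⟨j, hj⟩ := R.exists_join (a : G)⁻¹ (b : G)⁻¹
      have h := (hj j).1 (R.le_refl j)
      have hjM : j⁻¹ ∈ R.M := by
        rw [mem_M, le_one_inv, inv_inv]
        exact (hj 1).2 ⟨(R.le_one_inv a).1 ((R.mem_M a).1 a.2),
          (R.le_one_inv b).1 ((R.mem_M b).1 b.2)⟩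
      refine ⟨⟨j⁻¹, hjM⟩, ?_, ?_, fun c h1 h2 => ?_⟩
      · exact (R.right_iff _ _).2 (by simpa using h.1)
      · exact (R.right_iff _ _).2 (by simpa using h.2)
      · refine (R.right_iff _ _).2 ?_
        simpa using (hj _).2 ⟨(R.right_iff _ _).1 h1, (R.right_iff _ _).1 h2⟩
  delta := by
    have hA : R.dA ∈ R.M := mul_mem (R.α_mem _) (R.α_mem _)
    have hX : R.dX ∈ R.M := mul_mem (R.β_mem _) (R.β_mem _)
    have hc : R.dA * R.dX ∈ Subgroup.center G := mul_mem R.dA_central R.dX_central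
    refine ⟨⟨R.dA * R.dX, mul_mem hA hX⟩, ?_, ?_⟩
    · ext x
      have hx := Subgroup.mem_center_iff.1 hc x
      constructor
      · rintro ⟨c, h⟩
        refine ⟨c, Subtype.ext ?_⟩
        have h' : (x : G) * c = R.dA * R.dX := congrArg Subtype.val h
        show (c : G) * x = R.dA * R.dX
        apply mul_left_cancel (a := (x : G))
        rw [← mul_assoc, h', hx]
      · rintro ⟨c, h⟩
        refine ⟨c, Subtype.ext ?_⟩
        have h' : (c : G) * x = R.dA * R.dX := congrArg Subtype.val h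
        show (x : G) * c = R.dA * R.dX
        apply mul_right_cancel (b := (x : G))
        rw [mul_assoc, h', hx]
    · rw [eq_top_iff]
      rintro ⟨g, hg⟩ -
      induction hg using Submonoid.closure_induction with
      | mem g hg =>
        refine Submonoid.subset_closure ?_
        rcases hg with ⟨a, rfl⟩ | ⟨x, rfl⟩
        · refine ⟨⟨R.α a * R.dX, mul_mem (R.α_mem a) hX⟩, Subtype.ext ?_⟩
          show R.α a * (R.α a * R.dX) = R.dA * R.dX
          rw [← mul_assoc, R.sqA, dA]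
        · refine ⟨⟨R.β x * R.dA, mul_mem (R.β_mem x) hA⟩, Subtype.ext ?_⟩
          show R.β x * (R.β x * R.dA) = R.dA * R.dX
          rw [← mul_assoc, R.sqX, ← dX, Subgroup.mem_center_iff.1 R.dA_central]
      | one => exact one_mem _
      | mul g h _ _ hg hh => exact mul_mem hg hh

include R in
theorem isGarsideGroup [Finite A] [Finite X] : IsGarsideGroup G := by
  refine ⟨R.M, R.isGarsideMonoid, fun g => ?_⟩
  obtain ⟨i, j, u, v, hu, hv, rfl⟩ := R.nf g
  refine ⟨_, R.nf_mem (i + |i|) (j + |j|) u v (by have := neg_abs_le i; omega)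
    (by have := neg_abs_le j; omega), _, R.nf_mem |i| |j| [] [] (abs_nonneg i) (abs_nonneg j), ?_⟩
  rw [eq_mul_inv_iff_mul_eq, List.map_nil, List.map_nil, List.prod_nil, mul_one, mul_one,
    zpow_add, zpow_add, ← mul_assoc, central_comm R.dA_central |i|, central_comm R.dX_central |j|,
    ← mul_assoc (R.dA ^ |i|), ← mul_assoc (R.dA ^ |i|), ← mul_assoc (R.dX ^ |j|),
    ← mul_assoc (R.dX ^ |j|), central_comm R.dX_central |j|, central_comm R.dA_central |i|,
    ← central_comm R.dX_central |j|]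
  simp only [mul_assoc]

end Model

end Pool.Agent.Lib.MP_19b52f_al
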