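import Pool.Agent.Lib.MP_19b52f_al.EA.Main

/-! Even Artin groups of FC type, also with right-angled vertices replaced by braid-embeddable
Artin groups, embed into braid groups. -/

namespace Pool.Agent.Lib.MP_19b52f_al.OldBraidEmbedding

open Pool.Agent.Lib.MP_19b52f_al.EA

theorem result {I S : Type} [Finite I] (M : CoxeterMatrix I) (hE : IsEvenType M)
    (hFC : IsFCType M) (N : CoxeterMatrix S) (β : S → I)
    (hβ : ∀ s t, β s ≠ β t → N s t = M (β s) (β t))
    (h1 : ∀ s s' j, β s = β s' → j ≠ β s → M (β s) j ≠ 0 → M (β s) j ≠ 2 → s = s')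
    (hB : ∀ i, (∃ s s', s ≠ s' ∧ β s = i ∧ β s' = i) →
      EmbedsInBraidGroup (Artin (restrict N {s | β s = i}))) :
    EmbedsInBraidGroup (Artin N) :=
  braid_embedding M hE hFC N β hβ h1 hB

end Pool.Agent.Lib.MP_19b52f_al.OldBraidEmbedding
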