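import Pool.Agent.Lib.MP_19b52f_al.FC.Main

namespace Pool.Agent.Lib.MP_19b52f_al.OldTypesABI

open Pool.Agent.Lib.MP_19b52f_al.EA Pool.Agent.Lib.MP_19b52f_al.FC

theorem result {S : Type} [Finite S] (M : CoxeterMatrix S)
    (h : ∀ T : Set S, (∀ s ∈ T, ∀ t ∈ T, M s t ≠ 0) → Irred M T →
      (∃ n, HasType M T (CoxeterMatrix.A n)) ∨ (∃ n, HasType M T (CoxeterMatrix.B n)) ∨
        ∃ m, HasType M T (CoxeterMatrix.I m)) : EmbedsInMCG (Artin M) :=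
  embeds h

end Pool.Agent.Lib.MP_19b52f_al.OldTypesABI
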