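import Pool.Agent.Lib.MP_19b52f_al.Garside

/-! The example: it is a Garside group and it is not residually finite. -/

namespace Pool.Agent.Lib.MP_19b52f_al

/-- the datum of the example -/
def DR : Datum (Fin 3) (Fin 3) where
  s := ![![0, 1, 2], ![0, 1, 2], ![2, 1, 0]]
  t := ![![0, 0, 1], ![1, 2, 0], ![2, 1, 2]]
  s_s := by decide
  t_s := by decide
  t_t := by decide
  s_t := by decide

section finite

variable {Q : Type*} [Group Q]

theorem count_act_xz : ∀ w : List (Fin 3),
    (DR.swap.act 0 w).count 1 + (DR.swap.act 2 w).count 1 + w.count 2 = w.length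
  | [] => rfl
  | a :: w => by
    have ih := count_act_xz w
    fin_cases a
    · show (0 :: DR.swap.act 0 w).count 1 + (1 :: DR.swap.act 2 w).count 1 +
        ((0 : Fin 3) :: w).count 2 = w.length + 1
      simp only [List.count_cons]
      simp
      omega
    · show (1 :: DR.swap.act 0 w).count 1 + (0 :: DR.swap.act 2 w).count 1 +
        ((1 : Fin 3) :: w).count 2 = w.length + 1
      simp only [List.count_cons]
      simp
      omega
    · show (2 :: DR.swap.act 2 w).count 1 + (2 :: DR.swap.act 0 w).count 1 +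
        ((2 : Fin 3) :: w).count 2 = w.length + 1
      simp only [List.count_cons]
      simp
      omega

theorem count_act_y : ∀ w : List (Fin 3), (DR.swap.act 1 w).count 2 = w.count 1
  | [] => rfl
  | a :: w => by
    have ih := count_act_y w
    fin_cases a
    · show (0 :: DR.swap.act 1 w).count 2 = ((0 : Fin 3) :: w).count 1
      simp [ih]
    · show (2 :: DR.swap.act 1 w).count 2 = ((1 : Fin 3) :: w).count 1
      simp [ih]
    · show (1 :: DR.swap.act 1 w).count 2 = ((2 : Fin 3) :: w).count 1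
      simp [ih]

theorem sec_y : ∀ w : List (Fin 3), DR.swap.sec 1 w = 1
  | [] => rfl
  | a :: w => by
    have ih := sec_y w
    fin_cases a <;> exact ih

theorem sec_xz : ∀ w : List (Fin 3),
    (w.count 2 % 2 = 0 → DR.swap.sec 0 w = 0 ∧ DR.swap.sec 2 w = 2) ∧
    (w.count 2 % 2 = 1 → DR.swap.sec 0 w = 2 ∧ DR.swap.sec 2 w = 0)
  | [] => ⟨fun _ => ⟨rfl, rfl⟩, fun h => by simp at h⟩
  | a :: w => by
    have ih := sec_xz w
    fin_cases a
    · have e : ((0 : Fin 3) :: w).count 2 = w.count 2 := by simp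
      exact ⟨fun h => ih.1 (e ▸ h), fun h => ih.2 (e ▸ h)⟩
    · have e : ((1 : Fin 3) :: w).count 2 = w.count 2 := by simp
      exact ⟨fun h => ih.1 (e ▸ h), fun h => ih.2 (e ▸ h)⟩
    · have e : ((2 : Fin 3) :: w).count 2 = w.count 2 + 1 := by simp
      refine ⟨fun h => ?_, fun h => ?_⟩
      · have h' : ((2 : Fin 3) :: w).count 2 % 2 = 0 := h
        exact (ih.2 (by omega)).symm
      · have h' : ((2 : Fin 3) :: w).count 2 % 2 = 1 := h
        exact (ih.1 (by omega)).symm

theorem act_append {A X : Type} (D : Datum A X) : ∀ (a : A) (u v : List X),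
    D.act a (u ++ v) = D.act a u ++ D.act (D.sec a u) v
  | _, [], _ => rfl
  | a, x :: u, v => by
    show D.s a x :: D.act (D.t a x) (u ++ v) = D.s a x :: (D.act (D.t a x) u ++ _)
    rw [act_append]
    rfl

variable (α β : Fin 3 → Q) (hc : ∀ a x, α a * β x = β (DR.s a x) * α (DR.t a x))

include hc in
theorem comm_swap (x a : Fin 3) : β x * α a = α (DR.t a x) * β (DR.s a x) := by
  rw [hc, DR.s_ts, DR.t_ts]

include hc in
theorem act_prod' : ∀ (x : Fin 3) (w : List (Fin 3)),
    β x * (w.map α).prod = ((DR.swap.act x w).map α).prod * β (DR.swap.sec x w)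
  | x, [] => by simp [Datum.act, Datum.sec]
  | x, a :: w => by
    show β x * (List.map α (a :: w)).prod =
      (List.map α (DR.t a x :: DR.swap.act (DR.s a x) w)).prod * β (DR.swap.sec (DR.s a x) w)
    rw [List.map_cons, List.prod_cons, List.map_cons, List.prod_cons, ← mul_assoc,
      comm_swap α β hc, mul_assoc, act_prod', mul_assoc]

include hc in
/-- parity descent -/
theorem descent : ∀ (m : ℕ), 0 < m → ∀ w : List (Fin 3), w.count 2 % 2 = 1 → w.length % 2 = 0 →
    (w.map α).prod ^ m = 1 → ∃ u : List (Fin 3), u.count 2 % 2 = 1 ∧ (u.map α).prod = 1 := by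
  intro m
  induction m using Nat.strong_induction_on with
  | _ m ih =>
    intro hm w h1 h2 hw
    have key : ∀ k : ℕ, ∃ u : List (Fin 3), u.count 2 = k * w.count 2 ∧
        (u.map α).prod = (w.map α).prod ^ k := by
      intro k
      induction k with
      | zero => exact ⟨[], by simp, by simp⟩
      | succ k ihk =>
        obtain ⟨u, hu1, hu2⟩ := ihk
        exact ⟨u ++ w, by rw [List.count_append, hu1]; ring,
          by rw [List.map_append, List.prod_append, hu2, pow_succ]⟩
    rcases Nat.even_or_odd' m with ⟨k, rfl | rfl⟩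
    · have hev : (w ++ w).count 2 % 2 = 0 := by rw [List.count_append]; omega
      have e1 := act_prod' α β hc 0 (w ++ w)
      rw [((sec_xz (w ++ w)).1 hev).1] at e1
      have e2 := act_prod' α β hc 1 (DR.swap.act 0 (w ++ w))
      rw [sec_y] at e2
      refine ih k (by omega) (by omega) (DR.swap.act 1 (DR.swap.act 0 (w ++ w))) ?_ ?_ ?_
      · rw [count_act_y, act_append, ((sec_xz w).2 h1).1, List.count_append]
        have := count_act_xz w
        omega
      · rw [Datum.length_act, Datum.length_act, List.length_append]; omega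
      · rw [← mul_inv_eq_iff_eq_mul] at e1 e2
        rw [← e2, ← e1, conj_pow, conj_pow, List.map_append, List.prod_append, ← sq, ← pow_mul, hw]
        simp
    · obtain ⟨u, hu1, hu2⟩ := key (2 * k + 1)
      refine ⟨u, ?_, hu2.trans hw⟩
      rw [hu1, Nat.mul_mod, h1]
      omega

include hc in
theorem key_comm [Finite Q] :
    (β 0 * (β 2)⁻¹) ^ 2 * (β 1 * (β 0 * (β 2)⁻¹) ^ 2 * (β 1)⁻¹) =
      (β 1 * (β 0 * (β 2)⁻¹) ^ 2 * (β 1)⁻¹) * (β 0 * (β 2)⁻¹) ^ 2 := by
  obtain ⟨u, hu1, hu2⟩ := descent α β hc (orderOf (([0, 2] : List (Fin 3)).map α).prod)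
    (orderOf_pos _) [0, 2] (by decide) (by decide) (pow_orderOf_eq_one _)
  have e1 := act_prod' α β hc 0 u
  rw [((sec_xz u).2 hu1).1, hu2, mul_one, ← mul_inv_eq_iff_eq_mul] at e1
  set δ : Q := β 0 * (β 2)⁻¹ with hδ
  have ax : α 0 * β 0 = β 0 * α 0 := hc 0 0
  have ay : α 0 * β 1 = β 1 * α 0 := hc 0 1
  have az : α 0 * β 2 = β 2 * α 1 := hc 0 2
  have bx : α 1 * β 0 = β 0 * α 1 := hc 1 0
  have by' : α 1 * β 1 = β 1 * α 2 := hc 1 1
  have bz : α 1 * β 2 = β 2 * α 0 := hc 1 2
  have cx : α 2 * β 0 = β 2 * α 2 := hc 2 0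
  have cy : α 2 * β 1 = β 1 * α 1 := hc 2 1
  have cz : α 2 * β 2 = β 0 * α 2 := hc 2 2
  have da : α 0 * δ = δ * α 1 := by
    rw [hδ, ← mul_assoc, ax, mul_assoc, mul_assoc, mul_right_inj, eq_inv_mul_iff_mul_eq,
      ← mul_assoc, ← bz, mul_inv_cancel_right]
  have db : α 1 * δ = δ * α 0 := by
    rw [hδ, ← mul_assoc, bx, mul_assoc, mul_assoc, mul_right_inj, eq_inv_mul_iff_mul_eq,
      ← mul_assoc, ← az, mul_inv_cancel_right]
  have dc : α 2 * δ = δ⁻¹ * α 2 := by
    rw [hδ, ← mul_assoc, cx, mul_inv_rev, inv_inv, mul_assoc, mul_assoc, mul_right_inj,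
      eq_inv_mul_iff_mul_eq, ← mul_assoc, ← cz, mul_inv_cancel_right]
  clear_value δ
  have d2a : α 0 * δ ^ 2 = δ ^ 2 * α 0 := by
    rw [sq, ← mul_assoc, da, mul_assoc, db, mul_assoc]
  have d2b : α 1 * δ ^ 2 = δ ^ 2 * α 1 := by
    rw [sq, ← mul_assoc, db, mul_assoc, da, mul_assoc]
  have d2c : α 2 * δ ^ 2 = (δ ^ 2)⁻¹ * α 2 := by
    rw [sq, ← mul_assoc, dc, mul_assoc, dc, mul_inv_rev, mul_assoc]
  set ε : Q := β 1 * δ ^ 2 * (β 1)⁻¹ with hε
  clear_value ε
  have conj : ∀ (p q : Fin 3) (η : Q), α p * β 1 = β 1 * α q → α q * δ ^ 2 = η * α q →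
      α p * ε = β 1 * η * (β 1)⁻¹ * α p := by
    intro p q η h1 h2
    have h3 : α q * (β 1)⁻¹ = (β 1)⁻¹ * α p := by
      rw [eq_inv_mul_iff_mul_eq, ← mul_assoc, ← h1, mul_inv_cancel_right]
    rw [hε, ← mul_assoc, ← mul_assoc, h1, mul_assoc (β 1), h2, mul_assoc, mul_assoc, h3]
    simp only [mul_assoc]
  have ea : α 0 * ε = ε * α 0 := by rw [conj 0 0 _ ay d2a, hε]
  have eb : α 1 * ε = ε⁻¹ * α 1 := by
    rw [conj 1 2 _ by' d2c, hε]
    simp only [mul_inv_rev, inv_inv, mul_assoc]
  have ec : α 2 * ε = ε * α 2 := by rw [conj 2 1 _ cy d2b, hε]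
  have flip : ∀ g η : Q, g * ε = η * g → g * ε⁻¹ = η⁻¹ * g := by
    intro g η h
    rw [eq_inv_mul_iff_mul_eq, ← mul_assoc, ← h, mul_inv_cancel_right]
  have hw : ∀ w : List (Fin 3), (w.map α).prod * ε = ε * (w.map α).prod ∨
      (w.map α).prod * ε = ε⁻¹ * (w.map α).prod := by
    intro w
    induction w with
    | nil => left; simp
    | cons p w ih =>
      have hp : α p * ε = ε * α p ∨ α p * ε = ε⁻¹ * α p := by
        fin_cases p
        · exact Or.inl ea
        · exact Or.inr eb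
        · exact Or.inl ec
      rw [List.map_cons, List.prod_cons, mul_assoc]
      rcases ih with ih | ih <;> rcases hp with hp | hp <;> rw [ih, ← mul_assoc]
      · left; rw [hp, mul_assoc]
      · right; rw [hp, mul_assoc]
      · right; rw [flip _ _ hp, mul_assoc]
      · left; rw [flip _ _ hp, inv_inv, mul_assoc]
  have hd := hw (DR.swap.act 0 u)
  rw [← e1] at hd
  rcases hd with hd | hd
  · rw [sq, mul_assoc, hd, ← mul_assoc, hd, mul_assoc]
  · rw [sq, mul_assoc, hd, ← mul_assoc, flip _ _ hd, inv_inv, mul_assoc]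

end finite

open Gen

theorem rel_holds {p q r s : Gen} (h : rel p q r s ∈ rels) :
    (PresentedGroup.of p * PresentedGroup.of q : Rad) = PresentedGroup.of r * PresentedGroup.of s :=
  PresentedGroup.mk_eq_mk_of_mul_inv_mem (rels := rels) (x := FreeGroup.of p * FreeGroup.of q)
    (y := FreeGroup.of r * FreeGroup.of s) h

/-- a homomorphism defined by values on the two alphabets -/
def liftR {H : Type} [Group H] (α β : Fin 3 → H) (h1 : ∀ a a', α a * α a = α a' * α a')
    (h2 : ∀ a a', β a * β a = β a' * β a')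
    (hc : ∀ a x, α a * β x = β (DR.s a x) * α (DR.t a x)) : Rad →* H :=
  PresentedGroup.toGroup (f := fun g => match g with
      | a => α 0 | b => α 1 | c => α 2 | x => β 0 | y => β 1 | z => β 2) (by
    intro r hr
    simp only [rels, Set.mem_insert_iff, Set.mem_singleton_iff] at hr
    rcases hr with rfl | rfl | rfl | rfl | rfl | rfl | rfl | rfl | rfl | rfl | rfl | rfl | rfl <;>
      simp only [rel, map_mul, map_inv, FreeGroup.lift_apply_of, mul_inv_eq_one]
    · exact h1 0 1
    · exact h1 1 2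
    · exact h2 0 1
    · exact h2 1 2
    · exact hc 0 0
    · exact hc 0 1
    · exact hc 0 2
    · exact hc 1 0
    · exact hc 1 1
    · exact hc 1 2
    · exact hc 2 0
    · exact hc 2 1
    · exact hc 2 2)

/-- first alphabet -/
def αR : Fin 3 → Rad := ![PresentedGroup.of a, PresentedGroup.of b, PresentedGroup.of c]

/-- second alphabet -/
def βR : Fin 3 → Rad := ![PresentedGroup.of x, PresentedGroup.of y, PresentedGroup.of z]

theorem liftR_α {H : Type} [Group H] (α β : Fin 3 → H) (h1 h2 hc) (p : Fin 3) :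
    liftR α β h1 h2 hc (αR p) = α p := by
  fin_cases p <;> exact PresentedGroup.toGroup.of _

theorem liftR_β {H : Type} [Group H] (α β : Fin 3 → H) (h1 h2 hc) (p : Fin 3) :
    liftR α β h1 h2 hc (βR p) = β p := by
  fin_cases p <;> exact PresentedGroup.toGroup.of _

theorem commR (p q : Fin 3) : αR p * βR q = βR (DR.s p q) * αR (DR.t p q) := by
  fin_cases p <;> fin_cases q <;> exact rel_holds (by simp [rels])

/-- the model attached to the example -/
def modelR : Model DR Rad where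
  α := αR
  β := βR
  comm := commR
  a0 := 0
  x0 := 0
  sqA p := by
    have h1 : αR 0 * αR 0 = αR 1 * αR 1 := rel_holds (by simp [rels])
    have h2 : αR 1 * αR 1 = αR 2 * αR 2 := rel_holds (by simp [rels])
    fin_cases p
    · rfl
    · exact h1.symm
    · exact (h1.trans h2).symm
  sqX p := by
    have h1 : βR 0 * βR 0 = βR 1 * βR 1 := rel_holds (by simp [rels])
    have h2 : βR 1 * βR 1 = βR 2 * βR 2 := rel_holds (by simp [rels])
    fin_cases p
    · rfl
    · exact h1.symm
    · exact (h1.trans h2).symm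
  gen H h1 h2 g := by
    refine PresentedGroup.generated_by rels H (fun j => ?_) g
    cases j
    · exact h1 0
    · exact h1 1
    · exact h1 2
    · exact h2 0
    · exact h2 1
    · exact h2 2
  ρA := liftR mulP DR.swap.actP (fun _ _ => by rw [mulP_sq, mulP_sq])
    (fun _ _ => by rw [actP_sq, actP_sq]) (mulP_actP DR)
  ρX := liftR DR.actP mulP (fun _ _ => by rw [actP_sq, actP_sq])
    (fun _ _ => by rw [mulP_sq, mulP_sq]) (actP_mulP DR)
  νA := liftR (fun _ => Multiplicative.ofAdd 1) (fun _ => 1) (fun _ _ => rfl) (fun _ _ => rfl)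
    (fun _ _ => mul_comm _ _)
  νX := liftR (fun _ => 1) (fun _ => Multiplicative.ofAdd 1) (fun _ _ => rfl) (fun _ _ => rfl)
    (fun _ _ => mul_comm _ _)
  ρA_α := liftR_α _ _ _ _ _
  ρA_β := liftR_β _ _ _ _ _
  ρX_α := liftR_α _ _ _ _ _
  ρX_β := liftR_β _ _ _ _ _
  νA_α := liftR_α _ _ _ _ _
  νA_β := liftR_β _ _ _ _ _
  νX_α := liftR_α _ _ _ _ _
  νX_β := liftR_β _ _ _ _ _

theorem not_comm :
    (βR 0 * (βR 2)⁻¹) ^ 2 * (βR 1 * (βR 0 * (βR 2)⁻¹) ^ 2 * (βR 1)⁻¹) ≠
      (βR 1 * (βR 0 * (βR 2)⁻¹) ^ 2 * (βR 1)⁻¹) * (βR 0 * (βR 2)⁻¹) ^ 2 := by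
  intro h
  have hi : ∀ q : Fin 3, (mulP q)⁻¹ = mulP q := fun q => inv_eq_of_mul_eq_one_right (mulP_sq q)
  have hβ : ∀ q : Fin 3, modelR.ρX (βR q) = mulP q := modelR.ρX_β
  have h1 := congrArg (fun g => (modelR.ρX g W.o).1) h
  simp only [sq, map_mul, map_inv, hβ, hi, Equiv.Perm.mul_apply, mulP_val] at h1
  revert h1
  decide

theorem main_result : IsGarsideGroup Rad ∧ ∃ g : Rad, g ≠ 1 ∧
    ∀ (H : Type*) [Group H] [Group.ResiduallyFinite H] (f : Rad →* H), f g = 1 := by
  refine ⟨modelR.isGarsideGroup, _, fun h => not_comm (eq_of_mul_inv_eq_one h), ?_⟩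
  intro H _ _ f
  refine Group.eq_one_iff_forall_finiteIndexNormalSubroup _ fun K => ?_
  let φ : Rad →* H ⧸ K.toSubgroup := (QuotientGroup.mk' K.toSubgroup).comp f
  have key := key_comm (fun p => φ (αR p)) (fun p => φ (βR p))
    (fun p q => by rw [← map_mul, commR, map_mul])
  rw [← FiniteIndexNormalSubgroup.mem_toSubgroup_iff, ← QuotientGroup.eq_one_iff]
  show φ _ = 1
  simp only [map_mul, map_inv, map_pow]
  exact mul_inv_eq_one.2 key

end Pool.Agent.Lib.MP_19b52f_al
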